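import Pool.Agent.H88.GN.Ind

/-!
# H88 GN, All: the linear groups over all commutative rings
-/

set_option autoImplicit false

namespace Pool.Agent.H88.GN

open Pool.Agent.H98.FJ

/-- the linear groups over all commutative rings -/
theorem gl_all {C : (G : Type) → [Group G] → Prop} (hC : Inherits C) (hE : Extension C)
    (hS : ∀ (G : Type) [Group G], Group.IsSolvable G → C G) (hQ : ∀ n : ℕ, C (GL (Fin n) ℚ)) (hstep : Step C)
    (A : Type) [CommRing A] (n : ℕ) : C (GL (Fin n) A) :=
  Pool.Agent.H65.NT.gl_ring hC hE hS (fun F _ => gl_all_fields hC hE hS hQ hstep F n) A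

end Pool.Agent.H88.GN
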