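import Pool.Agent.H88.GN.Base
import Pool.Agent.H10.RA.Has

/-!
# H88 GN, BaseS: a subgroup of `PS n F` which fixes a lattice at every place is in the class
-/

set_option autoImplicit false

namespace Pool.Agent.H88.GN

open Pool.Agent.H98.FJ Pool.Agent.H54.TT Pool.Agent.H10.RA Pool.Agent.H76.LN
open Pool.Agent.H76.GT (PlaceSys kap mem_kap)

variable {F : Type} [Field F] {n : ℕ}

/-- the form of NA with stabilisers -/
theorem normIn_of {C : (G : Type) → [Group G] → Prop} (hC : Inherits C)
    (hna : ∀ A : Sp n F, ((1 : Mn n F) ∈ A.sub ∧ ∀ x ∈ A.sub, ∀ y ∈ A.sub, x * y ∈ A.sub) →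
      Module.finrank F A.sub ≠ 1 → A.sub ≠ ⊤ → C (MulAction.stabilizer (PG n F) A)) : NormIn C n F := by
  intro A h1 hm hb ht G hG
  obtain ⟨A', hA'⟩ : ∃ A' : Sp n F, A'.sub = A := ⟨(A : Submodule F (Mn n F)), rfl⟩
  subst hA'
  have hle : G ≤ MulAction.stabilizer (PG n F) A' := by
    intro p hp
    obtain ⟨g, rfl⟩ := pr_surj p
    rw [MulAction.mem_stabilizer_iff, pr_smul_sp]
    show cjS g A'.sub = A'.sub
    refine Submodule.ext fun x => ?_
    rw [mem_cjS]
    constructor
    · intro hx
      have h2 := hG g hp _ hx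
      rwa [← cj_mul, mul_inv_cancel, cj_one] at h2
    · intro hx
      exact hG g⁻¹ (by rw [map_inv]; exact G.inv_mem hp) x hx
  refine hC.of_injective (Subgroup.inclusion hle) (Subgroup.inclusion_injective hle) (hna A' ⟨h1, hm⟩ ?_ ht)
  intro hr
  apply hb
  have hr' : Module.finrank F A'.sub = 1 := hr
  have h10 : (⟨1, h1⟩ : A'.sub) ≠ 0 := by
    intro h0
    have h2 : (1 : Mn n F) = 0 := congrArg Subtype.val h0
    have h3 : ∀ x : A'.sub, x = 0 := fun x => Subtype.ext (by
      show x.1 = 0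
      rw [← mul_one x.1, h2, mul_zero])
    have h4 : Subsingleton A'.sub := ⟨fun a b => (h3 a).trans (h3 b).symm⟩
    rw [Module.finrank_zero_of_subsingleton] at hr'
    exact absurd hr' (by norm_num)
  apply le_antisymm
  · intro x hx
    obtain ⟨c, hc⟩ := (finrank_eq_one_iff_of_nonzero' _ h10).1 hr' ⟨x, hx⟩
    exact Submodule.mem_span_singleton.2 ⟨c, congrArg Subtype.val hc⟩
  · rw [Submodule.span_le, Set.singleton_subset_iff]
    exact h1

/-- linear groups over isomorphic fields -/
theorem gl_of_hom {C : (G : Type) → [Group G] → Prop} (hC : Inherits C) {K L : Type} [Field K] [Field L] (f : K →+* L)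
    (N : ℕ) (h : C (GL (Fin N) L)) : C (GL (Fin N) K) := by
  refine hC.of_injective (Matrix.GeneralLinearGroup.map (n := Fin N) f) ?_ h
  intro a b hab
  apply Units.ext
  ext i j
  apply f.injective
  have h1 : (Matrix.GeneralLinearGroup.map (n := Fin N) f a).val i j
      = (Matrix.GeneralLinearGroup.map (n := Fin N) f b).val i j := by rw [hab]
  exact h1

/-- BASE: a group which fixes a lattice at every place -/
theorem base {C : (G : Type) → [Group G] → Prop} (hC : Inherits C)
    (hS : ∀ (G : Type) [Group G], Group.IsSolvable G → C G) {k ι : Type} [Field k] [Algebra k F]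
    {v : ι → F → ℤ} (h : PlaceSys F ι v) (hall : ∀ x : F, (∀ i, Ge (v i) 0 x) → ∃ c : k, algebraMap k F c = x)
    (hk : ∀ N : ℕ, C (GL (Fin N) k))
    (hna : ∀ A : Sp n F, ((1 : Mn n F) ∈ A.sub ∧ ∀ x ∈ A.sub, ∀ y ∈ A.sub, x * y ∈ A.sub) →
      Module.finrank F A.sub ≠ 1 → A.sub ≠ ⊤ → C (MulAction.stabilizer (PG n F) A))
    (G : Subgroup (PS n F)) (hG : ∀ i, ∃ x : Lt n (h.dv i), ∀ g ∈ G, g • x = x) : C G := by
  classical
  -- the constants
  have hκ : ∀ N : ℕ, C (GL (Fin N) (kap h)) := by
    intro N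
    choose f hf using fun x : kap h => hall x.1 x.2
    have hinj : Function.Injective (algebraMap k F) := (algebraMap k F).injective
    let φ : kap h →+* k :=
      { toFun := f
        map_one' := hinj (by rw [hf, map_one]; rfl)
        map_mul' := fun a b => hinj (by rw [hf, map_mul, hf, hf]; rfl)
        map_zero' := hinj (by rw [hf, map_zero]; rfl)
        map_add' := fun a b => hinj (by rw [hf, map_add, hf, hf]; rfl) }
    exact gl_of_hom hC φ N (hk N)
  have h1 : C (G.map (psg n F)) := by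
    refine base_mem h hC hS hκ (normIn_of hC hna) _ ?_
    intro i
    obtain ⟨x, hx⟩ := hG i
    refine ⟨lv (h.dv i) x, ?_⟩
    rintro _ ⟨g, hg, rfl⟩
    rw [← lv_smul, hx g hg]
  exact hC.iso _ _ (G.equivMapOfInjective (psg n F) psg_inj).symm h1

end Pool.Agent.H88.GN
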