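import Pool.Agent.H88.GN.Emb
import Pool.Agent.H76.GT.PlD
import Pool.Agent.H98.FJ.P.Ext0

/-!
# H88 GN, Base: groups which fix a vertex at every place are in the class
-/

set_option autoImplicit false

namespace Pool.Agent.H88.GN

open Matrix Pool.Agent.H54.TT Pool.Agent.H98.FJ Pool.Agent.H10.RA
open Pool.Agent.H76.GT (PlaceSys kap)
open scoped commutatorElement

/-- the normalisers of the proper subalgebras other than the scalars are in the class -/
def NormIn (C : (G : Type) → [Group G] → Prop) (n : ℕ) (F : Type) [Field F] : Prop :=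
  ∀ A : Submodule F (Mn n F), 1 ∈ A → (∀ x ∈ A, ∀ y ∈ A, x * y ∈ A) →
    A ≠ Submodule.span F {1} → A ≠ ⊤ →
    ∀ G : Subgroup (PG n F), (∀ g : GL (Fin n) F, pr n F g ∈ G → ∀ x ∈ A, cj g x ∈ A) → C G

variable {F : Type} [Field F] {n : ℕ}

/-- the span of a normal subgroup is normalised -/
theorem spG_norm {U : Subgroup (GL (Fin n) F)} {g : GL (Fin n) F} (hg : ∀ u ∈ U, g * u * g⁻¹ ∈ U) :
    ∀ x ∈ spG U, cj g x ∈ spG U := by
  intro x hx
  induction hx using Submodule.span_induction with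
  | mem x hx =>
    obtain ⟨u, hu, rfl⟩ := hx
    rw [cj_val]
    exact mem_spG (hg u hu)
  | zero =>
    rw [cj_zero]
    exact Submodule.zero_mem _
  | add x y _ _ ihx ihy =>
    rw [cj_add]
    exact Submodule.add_mem _ ihx ihy
  | smul c x _ ihx =>
    have e : cj g (c • x) = c • cj g x := by
      unfold cj
      rw [Matrix.mul_smul, Matrix.smul_mul]
    rw [e]
    exact Submodule.smul_mem _ c ihx

/-- the same over a subfield -/
theorem lam_norm {k : Subfield F} {U : Subgroup (GL (Fin n) F)} {g : GL (Fin n) F} (hg : ∀ u ∈ U, g * u * g⁻¹ ∈ U) :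
    ∀ x ∈ lam k U, cj g x ∈ lam k U := by
  intro x hx
  induction hx using Submodule.span_induction with
  | mem x hx =>
    obtain ⟨u, hu, rfl⟩ := hx
    rw [cj_val]
    exact mem_lam (hg u hu)
  | zero =>
    rw [cj_zero]
    exact Submodule.zero_mem _
  | add x y _ _ ihx ihy =>
    rw [cj_add]
    exact Submodule.add_mem _ ihx ihy
  | smul c x _ ihx =>
    have e : cj g (c • x) = c • cj g x := by
      unfold cj
      rw [Matrix.mul_smul, Matrix.smul_mul]
    rw [e]
    exact Submodule.smul_mem _ c ihx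

/-- the commutator subgroup is normal -/
theorem comm_norm {P : Subgroup (GL (Fin n) F)} {g : GL (Fin n) F} (hg : g ∈ P) :
    ∀ u ∈ ⁅P, P⁆, g * u * g⁻¹ ∈ ⁅P, P⁆ := by
  intro y hy
  have hyP : y ∈ P := Subgroup.commutator_le_self P hy
  have h1 : ⁅g, y⁆ ∈ ⁅P, P⁆ := Subgroup.commutator_mem_commutator hg hyP
  have h2 : g * y * g⁻¹ = ⁅g, y⁆ * y := by
    rw [commutatorElement_def]
    group
  rw [h2]
  exact Subgroup.mul_mem _ h1 hy

/-- commutators have determinant one -/
theorem det_comm {P : Subgroup (GL (Fin n) F)} : ∀ u ∈ ⁅P, P⁆, u.val.det = 1 := by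
  intro g hg
  have hdk : ⁅P, P⁆ ≤ (Matrix.GeneralLinearGroup.det (n := Fin n) (R := F)).ker :=
    Subgroup.commutator_le.2 (fun a _ b _ => by
      rw [MonoidHom.mem_ker, map_commutatorElement, commutatorElement_eq_one_iff_mul_comm]
      exact mul_comm _ _)
  have h1 : Matrix.GeneralLinearGroup.det g = 1 := hdk hg
  have h2 := congrArg (fun u : Fˣ => (u : F)) h1
  simpa using h2

/-- the trace of an element of determinant one which fixes a vertex is integral -/
theorem trace_of_fix {v : F → ℤ} (hv : IsDV v) {g : GL (Fin n) F} {x : Vn n hv} (h : g • x = x) (hd : g.val.det = 1) :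
    Ge v 0 g.val.trace := by
  obtain ⟨a, rfl⟩ := QuotientGroup.mk_surjective x
  have h1 : Zd v (a⁻¹ * g * a) := (vn_fix hv).1 h
  have h2 : v (a⁻¹ * g * a).det.val = 0 := by
    rw [H10.RA.det_conj]
    have h3 : g.det.val = 1 := hd
    rw [h3, hv.one]
  exact InE.trace hv (inE_iff.2 (geN_of_zd h1 h2))

variable {ι : Type} {v : ι → F → ℤ} (h : PlaceSys F ι v)

theorem trace_mem_kap {g : GL (Fin n) F} (hg : ∀ i, ∃ x : Vn n (h.dv i), g • x = x) (hd : g.val.det = 1) :
    g.val.trace ∈ kap h := by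
  intro i
  obtain ⟨x, hx⟩ := hg i
  exact trace_of_fix (h.dv i) hx hd

/-- **Groups with a fixed vertex at every place are in the class.** -/
theorem base_mem {C : (G : Type) → [Group G] → Prop} (hC : Inherits C)
    (hsol : ∀ (G : Type) [Group G], Group.IsSolvable G → C G)
    (hκ : ∀ N : ℕ, C (GL (Fin N) (kap h))) (hN : NormIn C n F)
    (G : Subgroup (PG n F)) (hG : ∀ i, ∃ x : Vn n (h.dv i), ∀ g ∈ G, g • x = x) : C G := by
  classical
  obtain ⟨P, hP⟩ : ∃ P : Subgroup (GL (Fin n) F), P = G.comap (pr n F) := ⟨_, rfl⟩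
  obtain ⟨U, hU⟩ : ∃ U : Subgroup (GL (Fin n) F), U = ⁅P, P⁆ := ⟨_, rfl⟩
  have hUP : U ≤ P := by
    rw [hU]
    exact Subgroup.commutator_le_self P
  have hfix : ∀ g ∈ P, ∀ i, ∃ x : Vn n (h.dv i), g • x = x := by
    intro g hg i
    obtain ⟨x, hx⟩ := hG i
    refine ⟨x, ?_⟩
    have hg' : pr n F g ∈ G := by
      rw [hP] at hg
      exact hg
    exact hx _ hg'
  have hd : ∀ g ∈ U, g.val.det = 1 := by
    rw [hU]
    exact det_comm
  have ht : ∀ g ∈ U, g.val.trace ∈ kap h := fun g hg => trace_mem_kap h (hfix g (hUP hg)) (hd g hg)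
  have hconj : ∀ g : GL (Fin n) F, pr n F g ∈ G → ∀ u ∈ U, g * u * g⁻¹ ∈ U := by
    intro g hg
    have hg' : g ∈ P := by
      rw [hP]
      exact hg
    rw [hU]
    exact comm_norm hg'
  by_cases hs : spG U = ⊤
  · have hfin : Module.Finite (kap h) (lam (kap h) U) := finite_lam ht hs
    refine mem_of_lat hC (kap h) hκ (lam (kap h) U) ?_ G ?_
    · rw [eq_top_iff, ← hs]
      refine Submodule.span_le.2 ?_
      rintro x ⟨g, hg, rfl⟩
      exact Submodule.subset_span (mem_lam hg)
    · intro g hg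
      exact lam_norm (hconj g hg)
  by_cases hb : spG U = Submodule.span F {1}
  · have hcomm : ∀ a b : G, a * b = b * a := by
      rintro ⟨a, ha⟩ ⟨b, hb'⟩
      obtain ⟨x, rfl⟩ := pr_surj a
      obtain ⟨y, rfl⟩ := pr_surj b
      have hx : x ∈ P := by
        rw [hP]
        exact ha
      have hy : y ∈ P := by
        rw [hP]
        exact hb'
      have h1 : ⁅x, y⁆ ∈ U := by
        rw [hU]
        exact Subgroup.commutator_mem_commutator hx hy
      have h2 := mem_spG h1
      rw [hb, Submodule.mem_span_singleton] at h2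
      obtain ⟨c, hc⟩ := h2
      have h3 : pr n F ⁅x, y⁆ = 1 := pr_eq_one.2 ⟨c, hc.symm⟩
      rw [map_commutatorElement, commutatorElement_eq_one_iff_mul_comm] at h3
      exact Subtype.ext h3
    exact hsol G (Group.isSolvable_of_comm hcomm)
  · exact hN (spG U) (one_mem_spG U) (fun _ hx _ hy => mul_mem_spG hx hy) hb hs G fun g hg => spG_norm (hconj g hg)

end Pool.Agent.H88.GN
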