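import Mathlib

/-!
# H88 GN, Cmp: the compositum with an algebraically closed field of constants
-/

set_option autoImplicit false

namespace Pool.Agent.H88.GN

open IntermediateField

/-- separability and finiteness of a compositum -/
theorem sep_cmp {K F k F' : Type} [Field K] [Field F] [Field k] [Field F'] [Algebra K F] [Algebra k F'] (i : F →+* F')
    (i0 : K →+* k) (hc : ∀ c, i (algebraMap K F c) = algebraMap k F' (i0 c)) (x y : F) (hy : IsSeparable (adjoin K {x}) y)
    (htop : adjoin k {i x, i y} = ⊤) :
    FiniteDimensional (adjoin k {i x}) F' ∧ Algebra.IsSeparable (adjoin k {i x}) F' := by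
  classical
  -- the map between the small fields
  have hle : ∀ z ∈ adjoin K {x}, i z ∈ adjoin k {i x} := by
    have h1 : (adjoin K {x}).toSubfield ≤ (adjoin k {i x}).toSubfield.comap i := by
      refine adjoin_le_subfield K {x} ?_ ?_
      · rintro _ ⟨c, rfl⟩
        show i (algebraMap K F c) ∈ adjoin k {i x}
        rw [hc]
        exact (adjoin k {i x}).algebraMap_mem _
      · rintro z (hz : z = x)
        show i z ∈ adjoin k {i x}
        rw [hz]
        exact mem_adjoin_simple_self k (i x)
    exact fun z hz => h1 hz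
  let j : adjoin K {x} →+* adjoin k {i x} :=
    { toFun := fun z => ⟨i z.1, hle z.1 z.2⟩
      map_one' := Subtype.ext (map_one i)
      map_mul' := fun a b => Subtype.ext (map_mul i a.1 b.1)
      map_zero' := Subtype.ext (map_zero i)
      map_add' := fun a b => Subtype.ext (map_add i a.1 b.1) }
  have hj : (algebraMap (adjoin k {i x}) F').comp j = i.comp (algebraMap (adjoin K {x}) F) := RingHom.ext fun z => rfl
  -- the element is separable
  obtain ⟨μ, hμ⟩ : ∃ μ, μ = (minpoly (adjoin K {x}) y).map j := ⟨_, rfl⟩
  have hμs : μ.Separable := by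
    rw [hμ]
    exact Polynomial.Separable.map hy
  have hμ0 : Polynomial.aeval (i y) μ = 0 := by
    rw [hμ, Polynomial.aeval_def, Polynomial.eval₂_map, hj, ← Polynomial.hom_eval₂, ← Polynomial.aeval_def,
      minpoly.aeval, map_zero]
  have hμne : μ ≠ 0 := hμs.ne_zero
  have halg : IsAlgebraic (adjoin k {i x}) (i y) := ⟨μ, hμne, hμ0⟩
  have hs : IsSeparable (adjoin k {i x}) (i y) := hμs.of_dvd (minpoly.dvd _ _ hμ0)
  -- generation
  have hB : (adjoin (adjoin k {i x}) {i y}).restrictScalars k = ⊤ := by
    rw [adjoin_adjoin_left, ← htop]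
    congr 1
  have hB' : adjoin (adjoin k {i x}) {i y} = ⊤ := by
    rw [eq_top_iff]
    intro z _
    have h1 : z ∈ (adjoin (adjoin k {i x}) {i y}).restrictScalars k := by
      rw [hB]
      exact IntermediateField.mem_top
    exact h1
  have hfd : FiniteDimensional (adjoin k {i x}) (adjoin (adjoin k {i x}) {i y}) :=
    adjoin.finiteDimensional halg.isIntegral
  have hsp : Algebra.IsSeparable (adjoin k {i x}) (adjoin (adjoin k {i x}) {i y}) :=
    (isSeparable_adjoin_simple_iff_isSeparable _ _).2 hs
  rw [hB'] at hfd hsp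
  refine ⟨?_, ?_⟩
  · exact LinearEquiv.finiteDimensional (topEquiv (F := adjoin k {i x}) (E := F')).toLinearEquiv
  · exact Algebra.IsSeparable.of_algHom (adjoin k {i x}) (⊤ : IntermediateField (adjoin k {i x}) F')
      (topEquiv (F := adjoin k {i x}) (E := F')).symm.toAlgHom

end Pool.Agent.H88.GN
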