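import Pool.Agent.H54.TT.Val

/-!
# H88 GN, Res: discrete valuations of function fields over algebraically closed fields have rational residue fields
-/

set_option autoImplicit false

namespace Pool.Agent.H88.GN

open Pool.Agent.H54.TT Polynomial

variable {k F : Type} [Field k] [Field F] [Algebra k F]

/-- elements algebraic over an algebraically closed field are in the field -/
theorem mem_of_algebraic [IsAlgClosed k] {y : F} (hy : IsAlgebraic k y) : ∃ c : k, algebraMap k F c = y := by
  have h1 : IsIntegral k y := hy.isIntegral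
  have h2 := IsAlgClosed.degree_eq_one_of_irreducible k (minpoly.irreducible h1)
  exact minpoly.mem_range_of_degree_eq_one k y h2

variable {v : F → ℤ} (hv : IsDV v)

include hv in
theorem ge_const (hk : ∀ c : k, c ≠ 0 → v (algebraMap k F c) = 0) (c : k) : Ge v 0 (algebraMap k F c) := by
  intro h0
  have hc : c ≠ 0 := by
    rintro rfl
    rw [map_zero] at h0
    exact h0 rfl
  rw [hk c hc]

include hv in
theorem ge_pow {x : F} (hx : Ge v 0 x) (i : ℕ) : Ge v 0 (x ^ i) := by
  induction i with
  | zero =>
    rw [pow_zero]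
    intro _
    rw [hv.one]
  | succ i ih =>
    rw [pow_succ]
    have := ge_mul hv ih hx
    rwa [add_zero] at this

include hv in
/-- polynomials in integral elements -/
theorem ge_aeval (hk : ∀ c : k, c ≠ 0 → v (algebraMap k F c) = 0) {x : F} (hx : Ge v 0 x) (q : k[X]) :
    Ge v 0 (aeval x q) := by
  induction q using Polynomial.induction_on' with
  | add p q hp hq =>
    rw [map_add]
    exact ge_add hv hp hq
  | monomial i c =>
    rw [aeval_monomial]
    have := ge_mul hv (ge_const hv hk c) (ge_pow hv hx i)
    rwa [add_zero] at this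

include hv in
theorem ge_aeval_sub (hk : ∀ c : k, c ≠ 0 → v (algebraMap k F c) = 0) {p : F} (hp : Ge v 1 p) (q : k[X]) :
    Ge v 1 (aeval p q - algebraMap k F (q.eval 0)) := by
  have hp0 : Ge v 0 p := Ge.mono' hv (by norm_num) hp
  have h1 : aeval p q - algebraMap k F (q.eval 0) = p * aeval p q.divX := by
    have h2 := Polynomial.divX_mul_X_add q
    have h3 := congrArg (aeval p) h2
    rw [map_add, map_mul, aeval_X, aeval_C, Polynomial.coeff_zero_eq_eval_zero] at h3
    rw [← h3]
    ring
  rw [h1]
  have := ge_mul hv hp (ge_aeval hv hk hp0 q.divX)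
  rwa [add_zero] at this

include hv in
theorem ge_eval2_sub (hk : ∀ c : k, c ≠ 0 → v (algebraMap k F c) = 0) {p x : F} (hp : Ge v 1 p) (hx : Ge v 0 x)
    (Q : k[X][X]) :
    Ge v 1 (eval₂ (aeval p : k[X] →ₐ[k] F).toRingHom x Q - aeval x (Q.map (evalRingHom (0 : k)))) := by
  induction Q using Polynomial.induction_on' with
  | add P Q hP hQ =>
    have e : eval₂ (aeval p : k[X] →ₐ[k] F).toRingHom x (P + Q) - aeval x ((P + Q).map (evalRingHom (0 : k))) =
        (eval₂ (aeval p : k[X] →ₐ[k] F).toRingHom x P - aeval x (P.map (evalRingHom (0 : k)))) +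
        (eval₂ (aeval p : k[X] →ₐ[k] F).toRingHom x Q - aeval x (Q.map (evalRingHom (0 : k)))) := by
      rw [eval₂_add, Polynomial.map_add, map_add]
      ring
    rw [e]
    exact ge_add hv hP hQ
  | monomial i q =>
    have e : eval₂ (aeval p : k[X] →ₐ[k] F).toRingHom x (monomial i q) - aeval x ((monomial i q).map (evalRingHom (0 : k))) =
        (aeval p q - algebraMap k F (q.eval 0)) * x ^ i := by
      rw [eval₂_monomial, Polynomial.map_monomial, aeval_monomial]
      show aeval p q * x ^ i - algebraMap k F (q.eval 0) * x ^ i = _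
      ring
    rw [e]
    have := ge_mul hv (ge_aeval_sub hv hk hp q) (ge_pow hv hx i)
    rwa [add_zero] at this

include hv in
/-- if a nonzero polynomial over the algebraically closed field of constants has a value of positive valuation then the argument
is congruent to a constant -/
theorem exists_root [IsAlgClosed k] (hk : ∀ c : k, c ≠ 0 → v (algebraMap k F c) = 0) {x : F} (hx : Ge v 0 x) (m : ℕ) :
    ∀ R : k[X], R ≠ 0 → R.natDegree = m → Ge v 1 (aeval x R) → ∃ c : k, Ge v 1 (x - algebraMap k F c) := by
  induction m with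
  | zero =>
    intro R hR hm hg
    exfalso
    have h1 := Polynomial.eq_C_of_natDegree_eq_zero hm
    have h2 : R.coeff 0 ≠ 0 := by
      intro h0
      rw [h0, map_zero] at h1
      exact hR h1
    rw [h1, aeval_C] at hg
    have h3 := hg (by
      rw [map_ne_zero_iff _ (algebraMap k F).injective]
      exact h2)
    rw [hk _ h2] at h3
    omega
  | succ m ih =>
    intro R hR hm hg
    have hd : R.degree ≠ 0 := by
      rw [Polynomial.degree_eq_natDegree hR, hm]
      exact_mod_cast Nat.succ_ne_zero m
    obtain ⟨r, hr⟩ := IsAlgClosed.exists_root R hd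
    obtain ⟨R', rfl⟩ := Polynomial.dvd_iff_isRoot.2 hr
    have hR' : R' ≠ 0 := by
      rintro rfl
      rw [mul_zero] at hR
      exact hR rfl
    have hX : (X - C r : k[X]) ≠ 0 := Polynomial.X_sub_C_ne_zero r
    have hm' : R'.natDegree = m := by
      rw [Polynomial.natDegree_mul hX hR', Polynomial.natDegree_X_sub_C] at hm
      omega
    by_cases h1 : Ge v 1 (x - algebraMap k F r)
    · exact ⟨r, h1⟩
    · refine ih R' hR' hm' ?_
      have h2 : x - algebraMap k F r ≠ 0 := fun h0 => h1 (fun h3 => absurd h0 h3)
      have h3 : Ge v 0 (x - algebraMap k F r) := by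
        rw [sub_eq_add_neg]
        exact ge_add hv hx (ge_neg hv (ge_const hv hk r))
      have h4 : v (x - algebraMap k F r) = 0 := by
        have h5 := h3 h2
        have h6 : ¬ 1 ≤ v (x - algebraMap k F r) := fun h7 => h1 fun _ => h7
        omega
      intro h5
      have h6 : aeval x ((X - C r) * R') = (x - algebraMap k F r) * aeval x R' := by
        rw [map_mul, map_sub, aeval_X, aeval_C]
      rw [h6] at hg
      have h7 := hg (mul_ne_zero h2 h5)
      rw [hv.mul _ _ h2 h5, h4, zero_add] at h7
      exact h7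

include hv in
/-- **The residue field is the field of constants** if it is algebraically closed and the transcendence degree is one. -/
theorem exists_res [IsAlgClosed k] (hk : ∀ c : k, c ≠ 0 → v (algebraMap k F c) = 0)
    (htr : ∀ p : F, Transcendental k p → ∀ x : F, IsAlgebraic (Algebra.adjoin k {p}) x) (x : F) (hx : Ge v 0 x) :
    ∃ c : k, Ge v 1 (x - algebraMap k F c) := by
  classical
  obtain ⟨p, hp0, hp1⟩ := hv.unif
  have hpt : Transcendental k p := by
    intro ha
    obtain ⟨c, rfl⟩ := mem_of_algebraic ha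
    have hc : c ≠ 0 := by
      rintro rfl
      rw [map_zero] at hp0
      exact hp0 rfl
    rw [hk c hc] at hp1
    omega
  have hp : Ge v 1 p := fun _ => by rw [hp1]
  obtain ⟨P₀, hP₀, hz⟩ := htr p hpt x
  -- the polynomial ring maps onto the subalgebra
  let φ : k[X] →ₐ[k] Algebra.adjoin k {p} := aeval ⟨p, Algebra.self_mem_adjoin_singleton k p⟩
  have hφ : ∀ q, ((φ q : Algebra.adjoin k {p}) : F) = aeval p q := by
    intro q
    have h1 : ((Algebra.adjoin k {p}).val.comp φ) = (aeval p : k[X] →ₐ[k] F) := by
      apply Polynomial.algHom_ext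
      show ((φ X : Algebra.adjoin k {p}) : F) = aeval p X
      rw [aeval_X, aeval_X]
    exact DFunLike.congr_fun h1 q
  have hs : Function.Surjective φ := by
    rintro ⟨y, hy⟩
    rw [Algebra.adjoin_singleton_eq_range_aeval] at hy
    obtain ⟨q, hq⟩ := hy
    exact ⟨q, Subtype.ext ((hφ q).trans hq)⟩
  obtain ⟨P, hP⟩ := Polynomial.map_surjective φ.toRingHom hs P₀
  have hPne : P ≠ 0 := by
    rintro rfl
    rw [Polynomial.map_zero] at hP
    exact hP₀ hP.symm
  have hPz : eval₂ (aeval p : k[X] →ₐ[k] F).toRingHom x P = 0 := by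
    rw [← hP, aeval_def, eval₂_map] at hz
    have e : (algebraMap (Algebra.adjoin k {p}) F).comp φ.toRingHom = (aeval p : k[X] →ₐ[k] F).toRingHom := by
      apply RingHom.ext
      intro q
      exact hφ q
    rwa [e] at hz
  have hCX : ¬ IsUnit (C X : k[X][X]) := by
    rw [Polynomial.isUnit_C]
    exact Polynomial.not_isUnit_X
  obtain ⟨Q, hQ, hdv⟩ := (FiniteMultiplicity.of_not_isUnit hCX hPne).exists_eq_pow_mul_and_not_dvd
  have hQz : eval₂ (aeval p : k[X] →ₐ[k] F).toRingHom x Q = 0 := by
    rw [hQ, eval₂_mul, eval₂_pow, eval₂_C] at hPz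
    have h1 : (aeval p : k[X] →ₐ[k] F).toRingHom X = p := aeval_X p
    rw [h1] at hPz
    rcases mul_eq_zero.1 hPz with h2 | h2
    · exact absurd h2 (pow_ne_zero _ hp0)
    · exact h2
  have hRne : Q.map (evalRingHom (0 : k)) ≠ 0 := by
    intro h0
    apply hdv
    rw [Polynomial.C_dvd_iff_dvd_coeff]
    intro i
    rw [Polynomial.X_dvd_iff, Polynomial.coeff_zero_eq_eval_zero]
    have h1 := congrArg (fun r => r.coeff i) h0
    simp only [Polynomial.coeff_map, Polynomial.coeff_zero] at h1
    exact h1
  have h1 := ge_eval2_sub hv hk hp hx Q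
  rw [hQz, zero_sub] at h1
  have h2 := ge_neg hv h1
  rw [neg_neg] at h2
  exact exists_root hv hk hx _ _ hRne rfl h2

end Pool.Agent.H88.GN
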