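import Pool.Agent.H88.GN.Cmp
import Pool.Agent.H88.GN.Res
import Pool.Agent.H76.GT.FldS

/-!
# H88 GN, Cmp2: every finitely generated field embeds into a function field over an algebraically closed field of constants
-/

set_option autoImplicit false

namespace Pool.Agent.H88.GN

open IntermediateField Cardinal

/-- a separating transcendence basis, the last element singled out -/
theorem exists_sep (k F : Type) [Field k] [PerfectField k] [Field F] [Algebra k F]
    [Algebra.EssFiniteType k F] (m : ℕ) (hF : Algebra.trdeg k F = m + 1) :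
    ∃ (K : IntermediateField k F) (x : F), Algebra.trdeg k K = m ∧
      Transcendental K x ∧ FiniteDimensional (adjoin K {x}) F ∧
      Algebra.IsSeparable (adjoin K {x}) F := by
  classical
  obtain ⟨s, hs, hsep⟩ := exists_isTranscendenceBasis_and_isSeparable_of_perfectField k F
  have hcard : (s.card : Cardinal) = m + 1 := by
    rw [← hF, ← hs.cardinalMk_eq_trdeg]
    simp
  have hne : s.Nonempty := by
    rw [← Finset.card_pos]
    have : s.card = m + 1 := by exact_mod_cast hcard
    omega
  obtain ⟨x, hx⟩ := hne
  obtain ⟨s', hs'⟩ : ∃ s', s' = s.erase x := ⟨_, rfl⟩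
  obtain ⟨K, hK⟩ : ∃ K : IntermediateField k F, K = adjoin k (s' : Set F) := ⟨_, rfl⟩
  have hsx : (s' : Set F) ∪ {x} = s := by
    rw [hs']
    simp [hx]
  have hB : (adjoin K {x}).restrictScalars k = adjoin k (s : Set F) := by
    subst hK
    rw [adjoin_adjoin_left, hsx]
  have hsepB : Algebra.IsSeparable (adjoin K {x}) F := by
    have h1 : Algebra.IsSeparable ((adjoin K {x}).restrictScalars k) F := by
      rw [hB]
      exact hsep
    exact h1
  have hfin : FiniteDimensional (adjoin K {x}) F := by
    have e1 : Algebra.EssFiniteType K F := Algebra.EssFiniteType.of_comp k K F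
    have e2 : Algebra.EssFiniteType (adjoin K {x}) F := Algebra.EssFiniteType.of_comp K (adjoin K {x}) F
    have : Algebra.IsAlgebraic (adjoin K {x}) F := inferInstance
    exact Algebra.finite_of_essFiniteType_of_isAlgebraic
  have htr : Transcendental K x := by
    have h1 := hs.1.transcendental_adjoin (s := {j | (j : F) ≠ x}) (i := ⟨x, hx⟩) (by simp)
    have h2 : (fun j : s => (j : F)) '' {j | (j : F) ≠ x} = (s' : Set F) := by
      ext y
      rw [hs']
      simp
      tauto
    rw [h2] at h1
    subst hK
    intro h3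
    exact h1 (isAlgebraic_adjoin_iff.1 h3)
  refine ⟨K, x, ?_, htr, hfin, hsepB⟩
  have h1 : Algebra.trdeg k K + Algebra.trdeg K F = Algebra.trdeg k F := trdeg_add_eq k K
  have h2 : Algebra.trdeg K F = 1 := by
    have h3 : IsTranscendenceBasis K (fun _ : Unit => x) := by
      rw [isTranscendenceBasis_iff_algebraicIndependent_isAlgebraic]
      refine ⟨algebraicIndependent_unique_type_iff.2 htr, ?_⟩
      rw [Set.range_const]
      have h4 : Algebra.IsAlgebraic (adjoin K {x}) F := inferInstance
      rw [isAlgebraic_adjoin_iff_top] at h4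
      exact h4
    rw [← h3.cardinalMk_eq_trdeg]
    simp
  rw [h2, hF] at h1
  exact Cardinal.add_one_inj.1 h1

/-- transcendence degree one -/
theorem trdeg_one {k F : Type} [Field k] [Field F] [Algebra k F] (x : F) (hx : Transcendental k x)
    [Algebra.IsAlgebraic (adjoin k {x}) F] : Algebra.trdeg k F = 1 := by
  have h3 : IsTranscendenceBasis k (fun _ : Unit => x) := by
    rw [isTranscendenceBasis_iff_algebraicIndependent_isAlgebraic]
    refine ⟨algebraicIndependent_unique_type_iff.2 hx, ?_⟩
    rw [Set.range_const]
    have h4 : Algebra.IsAlgebraic (adjoin k {x}) F := inferInstance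
    rw [isAlgebraic_adjoin_iff_top] at h4
    exact h4
  rw [← h3.cardinalMk_eq_trdeg]
  simp

theorem alg_of_trdeg_one {k F : Type} [Field k] [Field F] [Algebra k F] (h : Algebra.trdeg k F = 1) (p : F)
    (hp : Transcendental k p) (x : F) : IsAlgebraic (Algebra.adjoin k {p}) x := by
  have h1 : AlgebraicIndependent k (fun _ : Unit => p) := algebraicIndependent_unique_type_iff.2 hp
  have h2 := h1.isTranscendenceBasis_of_trdeg_le_of_finite (by rw [h]; simp)
  have h3 := h2.isAlgebraic
  rw [Set.range_const] at h3
  exact h3.isAlgebraic x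

/-- **The compositum.** -/
theorem exists_cmp (k₀ F : Type) [Field k₀] [PerfectField k₀] [Field F] [Algebra k₀ F]
    [Algebra.EssFiniteType k₀ F] (m : ℕ) (hF : Algebra.trdeg k₀ F = m + 1) :
    ∃ (k F' : Type) (_ : Field k) (_ : Field F') (_ : Algebra k₀ k) (_ : Algebra k₀ F') (_ : Algebra k F') (x : F'),
      Nonempty (F →+* F') ∧ IsAlgClosed k ∧ Algebra.trdeg k₀ k = m ∧ Algebra.trdeg k₀ F' = m + 1 ∧ Transcendental k x ∧
      FiniteDimensional (adjoin k {x}) F' ∧ Algebra.IsSeparable (adjoin k {x}) F' := by
  classical
  obtain ⟨K, x, hK, hx, hfin, hsep⟩ := exists_sep k₀ F m hF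
  obtain ⟨y, hy⟩ := Field.exists_primitive_element (adjoin K {x}) F
  let Ω := AlgebraicClosure F
  have t1 : IsScalarTower k₀ K Ω := IsScalarTower.of_algebraMap_eq fun c => rfl
  let k : IntermediateField K Ω := algebraicClosure K Ω
  have hkc : IsAlgClosed k := (algebraicClosure.isAlgClosure K Ω).isAlgClosed
  let x' : Ω := algebraMap F Ω x
  let y' : Ω := algebraMap F Ω y
  let L : IntermediateField k Ω := adjoin k {x', y'}
  have hxL : x' ∈ L := subset_adjoin k _ (Set.mem_insert _ _)
  have hyL : y' ∈ L := subset_adjoin k _ (Set.mem_insert_of_mem _ rfl)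
  have t2 : IsScalarTower k₀ k Ω := IsScalarTower.of_algebraMap_eq fun c => rfl
  have t3 : IsScalarTower k₀ k L := IsScalarTower.of_algebraMap_eq fun c => rfl
  -- the embedding
  have htop : adjoin K {x, y} = ⊤ := by
    have h1 : (adjoin (adjoin K {x}) {y}).restrictScalars K = ⊤ := by
      rw [hy]
      rfl
    rw [adjoin_adjoin_left] at h1
    rw [← h1]
    congr 1
  have hle : ∀ z : F, algebraMap F Ω z ∈ L := by
    have h1 : (adjoin K {x, y}).toSubfield ≤ L.toSubfield.comap (algebraMap F Ω) := by
      refine adjoin_le_subfield K {x, y} ?_ ?_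
      · rintro _ ⟨c, rfl⟩
        show algebraMap F Ω (algebraMap K F c) ∈ L
        exact L.algebraMap_mem (algebraMap K k c)
      · intro z hz
        rcases hz with hz | hz
        · show algebraMap F Ω z ∈ L
          rw [hz]
          exact hxL
        · show algebraMap F Ω z ∈ L
          rw [Set.mem_singleton_iff] at hz
          rw [hz]
          exact hyL
    intro z
    have h2 : z ∈ adjoin K {x, y} := by
      rw [htop]
      exact IntermediateField.mem_top
    exact h1 h2
  let i : F →+* L :=
    { toFun := fun z => ⟨algebraMap F Ω z, hle z⟩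
      map_one' := Subtype.ext (map_one _)
      map_mul' := fun a b => Subtype.ext (map_mul _ a b)
      map_zero' := Subtype.ext (map_zero _)
      map_add' := fun a b => Subtype.ext (map_add _ a b) }
  have hLtop : adjoin k {i x, i y} = ⊤ := by
    apply lift_injective L
    rw [lift_adjoin, lift_top, Set.image_pair]
    rfl
  have hys : IsSeparable (adjoin K {x}) y := Algebra.IsSeparable.isSeparable _ y
  obtain ⟨hfd, hsp⟩ := sep_cmp i (algebraMap K k) (fun c => rfl) x y hys hLtop
  have htr : Transcendental k (i x) := by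
    have h1 : Transcendental K x' := by
      intro h2
      exact hx ((isAlgebraic_algebraMap_iff (algebraMap F Ω).injective).1 h2)
    have h2 : Transcendental k x' := h1.algebraicClosure
    intro h3
    apply h2
    exact (isAlgebraic_algebraMap_iff (A := Ω) (S := L) (algebraMap L Ω).injective).2 h3
  have hka : Algebra.IsAlgebraic K k := algebraicClosure.isAlgebraic K Ω
  have e1 : Algebra.trdeg k₀ K + Algebra.trdeg K k = Algebra.trdeg k₀ k := trdeg_add_eq k₀ K
  have e2 : Algebra.trdeg K k = 0 := trdeg_eq_zero_iff.2 hka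
  have e3 : Algebra.trdeg k₀ k + Algebra.trdeg k L = Algebra.trdeg k₀ L := trdeg_add_eq k₀ k
  have hal : Algebra.IsAlgebraic (adjoin k {i x}) L := inferInstance
  have e4 : Algebra.trdeg k L = 1 := trdeg_one (i x) htr
  refine ⟨k, L, inferInstance, inferInstance, inferInstance, inferInstance, inferInstance, i x, ⟨i⟩, hkc, ?_, ?_, htr,
    hfd, hsp⟩
  · rw [← e1, hK, e2, add_zero]
  · rw [← e3, ← e1, hK, e2, e4, add_zero]

end Pool.Agent.H88.GN
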