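import Pool.Agent.H88.GN.Lat
import Pool.Agent.H10.RA.Pg
import Pool.Agent.H98.FJ.Closed

/-!
# H88 GN, Emb: a projective group which normalises a lattice over a subfield embeds into a linear group over the subfield
-/

set_option autoImplicit false

namespace Pool.Agent.H88.GN

open Matrix Pool.Agent.H98.FJ Pool.Agent.H10.RA

variable {F : Type} [Field F] {n : ℕ}

theorem cj_add (g : GL (Fin n) F) (x y : Mn n F) : cj g (x + y) = cj g x + cj g y := by
  unfold cj
  rw [mul_add, add_mul]

theorem cj_zero (g : GL (Fin n) F) : cj g (0 : Mn n F) = 0 := by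
  unfold cj
  rw [mul_zero, zero_mul]

theorem cj_val (g u : GL (Fin n) F) : cj g u.val = (g * u * g⁻¹).val := by
  unfold cj
  rw [Units.val_mul, Units.val_mul]

/-- an element which commutes with everything is central -/
theorem central_of_cj {g : GL (Fin n) F} (h : ∀ x : Mn n F, cj g x = x) :
    g ∈ Subgroup.center (GL (Fin n) F) := by
  rw [Subgroup.mem_center_iff]
  intro k
  apply Units.ext
  have h2 := h k.val
  unfold cj at h2
  rw [Units.val_mul, Units.val_mul]
  calc k.val * g.val = g.val * k.val * (g⁻¹).val * g.val := by rw [h2]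
    _ = g.val * k.val := by rw [mul_assoc, Units.inv_mul, mul_one]

/-- conjugation by an element which preserves `L`, as an endomorphism of `L` -/
def cjE (k : Subfield F) (L : Submodule k (Mn n F)) (P : Subgroup (GL (Fin n) F))
    (hP : ∀ g ∈ P, ∀ x ∈ L, cj g x ∈ L) : P →* Module.End k L where
  toFun g :=
    { toFun := fun x => ⟨cj g.1 x.1, hP g.1 g.2 x.1 x.2⟩
      map_add' := fun x y => Subtype.ext (cj_add g.1 x.1 y.1)
      map_smul' := fun c x => Subtype.ext (by
        show cj g.1 (c • x.1) = _
        unfold cj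
        rw [Matrix.mul_smul, Matrix.smul_mul]
        rfl) }
  map_one' := LinearMap.ext fun x => Subtype.ext (cj_one x.1)
  map_mul' g h := LinearMap.ext fun x => Subtype.ext (cj_mul g.1 h.1 x.1)

/-- **Groups which normalise a lattice over a subfield.** -/
theorem mem_of_lat {C : (G : Type) → [Group G] → Prop} (hC : Inherits C) (k : Subfield F)
    (hk : ∀ N : ℕ, C (GL (Fin N) k)) (L : Submodule k (Mn n F)) [Module.Finite k L]
    (hL : Submodule.span F (L : Set (Mn n F)) = ⊤) (G : Subgroup (PG n F))
    (hG : ∀ g ∈ G.comap (pr n F), ∀ x ∈ L, cj g x ∈ L) : C G := by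
  classical
  let b := Module.finBasis k L
  let ψ : G.comap (pr n F) →* GL (Fin (Module.finrank k L)) k :=
    (((LinearMap.toMatrixAlgEquiv b).toMulEquiv.toMonoidHom).comp (cjE k L _ hG)).toHomUnits
  -- the kernel
  have hψ : ∀ g, ψ g = 1 → pr n F g.1 = 1 := by
    intro g h
    have h2 : LinearMap.toMatrixAlgEquiv b (cjE k L _ hG g) = 1 := congrArg Units.val h
    rw [← map_one (LinearMap.toMatrixAlgEquiv b)] at h2
    have h3 := (LinearMap.toMatrixAlgEquiv b).injective h2
    have h4 : ∀ x ∈ L, cj g.1 x = x := by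
      intro x hx
      have h5 := congrArg Subtype.val (LinearMap.congr_fun h3 ⟨x, hx⟩)
      exact h5
    have h5 : ∀ x, cj g.1 x = x := by
      intro x
      have hx : x ∈ Submodule.span F (L : Set (Mn n F)) := by
        rw [hL]
        exact Submodule.mem_top
      induction hx using Submodule.span_induction with
      | mem y hy => exact h4 y hy
      | zero => exact cj_zero _
      | add y z _ _ ihy ihz => rw [cj_add, ihy, ihz]
      | smul c y _ ihy =>
        unfold cj at ihy ⊢
        rw [Matrix.mul_smul, Matrix.smul_mul, ihy]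
    unfold pr
    rw [QuotientGroup.mk'_apply, QuotientGroup.eq_one_iff]
    exact central_of_cj h5
  have hψ' : ∀ g : G.comap (pr n F), pr n F g.1 = 1 → ψ g = 1 := by
    intro g h
    obtain ⟨c, hc⟩ := pr_eq_one.1 h
    apply Units.ext
    show LinearMap.toMatrixAlgEquiv b (cjE k L _ hG g) = 1
    rw [← map_one (LinearMap.toMatrixAlgEquiv b)]
    congr 1
    exact LinearMap.ext fun x => Subtype.ext (cj_scalar hc x.1)
  -- the map from the preimage to the group
  obtain ⟨π, hπ⟩ : ∃ π : G.comap (pr n F) →* G, ∀ g, (π g : PG n F) = pr n F g.1 :=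
    ⟨(pr n F).subgroupComap G, fun g => rfl⟩
  have hπs : Function.Surjective π := by
    rintro ⟨x, hx⟩
    obtain ⟨g, rfl⟩ := pr_surj x
    exact ⟨⟨g, hx⟩, Subtype.ext (hπ _)⟩
  have hk1 : ∀ g, π g = 1 ↔ ψ g = 1 := by
    intro g
    constructor
    · intro h
      apply hψ'
      rw [← hπ, h]
      rfl
    · intro h
      apply Subtype.ext
      rw [hπ]
      exact hψ g h
  have hker : π.ker = ψ.ker := by
    ext g
    exact hk1 g
  let e : G ≃* ψ.range := (QuotientGroup.quotientKerEquivOfSurjective π hπs).symm.trans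
    ((QuotientGroup.quotientMulEquivOfEq hker).trans (QuotientGroup.quotientKerEquivRange ψ))
  exact hC.iso _ _ e.symm (hC.sub _ ψ.range (hk _))

end Pool.Agent.H88.GN
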