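import Pool.Agent.H88.GN.Uni
import Pool.Agent.H88.GN.Cmp2
import Pool.Agent.H10.FF.Rat

/-!
# H88 GN, Ind: the induction on the transcendence degree

`Step C`: the step from the constants to the function field (`pg_step` of H76/LN/Stm). `pg_all`: the projective groups over all
fields are in the class.
-/

set_option autoImplicit false

namespace Pool.Agent.H88.GN

open Pool.Agent.H98.FJ Pool.Agent.H54.TT Pool.Agent.H10.RA
open Pool.Agent.H76.GT (PlaceSys)
open Cardinal

/-- the step from the constants to the field -/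
def Step (C : (G : Type) → [Group G] → Prop) : Prop :=
  ∀ (k F ι : Type) [Field k] [Field F] [Algebra k F] (v : ι → F → ℤ), PlaceSys F ι v →
    (∀ i (c : k), c ≠ 0 → v i (algebraMap k F c) = 0) →
    (∀ i (x : F), Ge (v i) 0 x → ∃ c : k, Ge (v i) 1 (x - algebraMap k F c)) →
    (∀ x : F, (∀ i, Ge (v i) 0 x) → ∃ c : k, algebraMap k F c = x) →
    ∀ n : ℕ, (∀ N : ℕ, C (GL (Fin N) k)) → (∀ j < n, C (PG j (AlgebraicClosure F))) → C (PG n F)

theorem trdeg_sub (k F : Type) [Field k] [Field F] [Algebra k F] (K : IntermediateField k F) :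
    Algebra.trdeg k K ≤ Algebra.trdeg k F := by
  have h1 : Algebra.trdeg k K + Algebra.trdeg K F = Algebra.trdeg k F := trdeg_add_eq k K
  rw [← h1]
  exact self_le_add_right _ _

theorem trdeg_closure (k F : Type) [Field k] [Field F] [Algebra k F] :
    Algebra.trdeg k (AlgebraicClosure F) = Algebra.trdeg k F := by
  have h1 : Algebra.trdeg k F + Algebra.trdeg F (AlgebraicClosure F) = Algebra.trdeg k (AlgebraicClosure F) :=
    trdeg_add_eq k F
  have h2 : Algebra.trdeg F (AlgebraicClosure F) = 0 := trdeg_eq_zero_iff.2 inferInstance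
  rw [← h1, h2, add_zero]

/-- the induction -/
theorem pg_trdeg {C : (G : Type) → [Group G] → Prop} (hC : Inherits C) (hE : Extension C)
    (hS : ∀ (G : Type) [Group G], Group.IsSolvable G → C G) (hstep : Step C) (k₀ : Type) [Field k₀] [PerfectField k₀]
    (h0 : ∀ (F : Type) [Field F] [Algebra k₀ F] [Module.Finite k₀ F] (n : ℕ), C (PG n F)) (m : ℕ) :
    ∀ (F : Type) [Field F] [Algebra k₀ F], Algebra.trdeg k₀ F ≤ m → ∀ n : ℕ, C (PG n F) := by
  induction m with
  | zero =>
    intro F _ _ hF n
    refine pg_union hC k₀ F n fun K hK => ?_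
    have h1 : Algebra.trdeg k₀ K ≤ (0 : ℕ) := (trdeg_sub k₀ F K).trans hF
    have h2 : Algebra.IsAlgebraic k₀ K := trdeg_eq_zero_iff.1 (by
      rw [Nat.cast_zero] at h1
      exact le_antisymm h1 zero_le)
    have h3 : FiniteDimensional k₀ K := Algebra.finite_of_essFiniteType_of_isAlgebraic
    exact h0 K n
  | succ m ih =>
    intro F _ _ hF n
    induction n using Nat.strong_induction_on generalizing F with
    | _ n ihn =>
      refine pg_union hC k₀ F n fun K hK => ?_
      have h1 : Algebra.trdeg k₀ K ≤ ((m + 1 : ℕ) : Cardinal) := (trdeg_sub k₀ F K).trans hF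
      by_cases h2 : Algebra.trdeg k₀ K ≤ (m : Cardinal)
      · exact ih K h2 n
      have h3 : Algebra.trdeg k₀ K = m + 1 := by
        obtain ⟨t, ht⟩ := Cardinal.lt_aleph0.1 (h1.trans_lt Cardinal.natCast_lt_aleph0)
        rw [ht] at h1 h2 ⊢
        have h4 : t ≤ m + 1 := by exact_mod_cast h1
        have h5 : ¬ t ≤ m := fun h6 => h2 (by exact_mod_cast h6)
        have h6 : t = m + 1 := by omega
        rw [h6]
        push_cast
        rfl
      obtain ⟨k, F', _, _, _, _, _, x, ⟨f⟩, hkc, hk, hF', hx, hfin, hsep⟩ := exists_cmp k₀ K m h3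
      obtain ⟨ι, v, hP, hconst, hres, hall⟩ := Pool.Agent.H10.FF.exists_places_rat k F' x hx hfin hsep
      refine pg_of_hom hC n f (hstep k F' ι v hP hconst hres hall n ?_ ?_)
      · intro N
        exact gl_of_pg hC hE hS k N (ih k (by rw [hk]) N)
      · intro j hj
        refine ihn j hj (AlgebraicClosure F') ?_
        rw [trdeg_closure, hF']
        push_cast
        exact le_rfl

/-- every field -/
theorem pg_prime {C : (G : Type) → [Group G] → Prop} (hC : Inherits C) (hE : Extension C)
    (hS : ∀ (G : Type) [Group G], Group.IsSolvable G → C G) (hstep : Step C) (k₀ : Type) [Field k₀] [PerfectField k₀]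
    (h0 : ∀ (F : Type) [Field F] [Algebra k₀ F] [Module.Finite k₀ F] (n : ℕ), C (PG n F))
    (F : Type) [Field F] [Algebra k₀ F] (n : ℕ) : C (PG n F) := by
  refine pg_union hC k₀ F n fun K hK => ?_
  obtain ⟨t, ht⟩ := Cardinal.lt_aleph0.1 (trdeg_lt_aleph0 k₀ K)
  exact pg_trdeg hC hE hS hstep k₀ h0 t K (by rw [ht]) n

/-- **FIELDS: the projective groups over all fields.** -/
theorem pg_all {C : (G : Type) → [Group G] → Prop} (hC : Inherits C) (hE : Extension C)
    (hS : ∀ (G : Type) [Group G], Group.IsSolvable G → C G) (hQ : ∀ n : ℕ, C (GL (Fin n) ℚ)) (hstep : Step C)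
    (F : Type) [Field F] (n : ℕ) : C (PG n F) := by
  rcases CharP.exists' F with h0 | ⟨p, hp, hpF⟩
  · let _ : Algebra ℚ F := DivisionRing.toRatAlgebra
    exact pg_prime hC hE hS hstep ℚ (fun K _ _ _ m => pg_number hC hQ K m) F n
  · let _ : Algebra (ZMod p) F := ZMod.algebra F p
    refine pg_prime hC hE hS hstep (ZMod p) (fun K _ _ _ m => ?_) F n
    have h3 : Finite K := Module.finite_of_finite (ZMod p)
    exact pg_finite hC K m

/-- the linear groups over all fields -/
theorem gl_all_fields {C : (G : Type) → [Group G] → Prop} (hC : Inherits C) (hE : Extension C)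
    (hS : ∀ (G : Type) [Group G], Group.IsSolvable G → C G) (hQ : ∀ n : ℕ, C (GL (Fin n) ℚ)) (hstep : Step C)
    (F : Type) [Field F] (n : ℕ) : C (GL (Fin n) F) :=
  gl_of_pg hC hE hS F n (pg_all hC hE hS hQ hstep F n)

end Pool.Agent.H88.GN
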