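import Mathlib

/-!
# H88 GN, Lat: groups whose commutator subgroup spans the matrix algebra and has its traces in a subfield
-/

set_option autoImplicit false

namespace Pool.Agent.H88.GN

open Matrix

variable {F : Type} [Field F] {n : ℕ}

/-- the span, over the subfield `k`, of a subgroup -/
def lam (k : Subfield F) (U : Subgroup (GL (Fin n) F)) : Submodule k (Matrix (Fin n) (Fin n) F) :=
  Submodule.span k {x | ∃ u ∈ U, x = u.val}

theorem mem_lam {k : Subfield F} {U : Subgroup (GL (Fin n) F)} {u : GL (Fin n) F} (hu : u ∈ U) : u.val ∈ lam k U :=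
  Submodule.subset_span ⟨u, hu, rfl⟩

/-- the traces of products -/
theorem trace_mem {k : Subfield F} {U : Subgroup (GL (Fin n) F)} (ht : ∀ u ∈ U, u.val.trace ∈ k) {x : Matrix (Fin n) (Fin n) F}
    (hx : x ∈ lam k U) {u : GL (Fin n) F} (hu : u ∈ U) : (x * u.val).trace ∈ k := by
  induction hx using Submodule.span_induction with
  | mem x hx =>
    obtain ⟨w, hw, rfl⟩ := hx
    have h1 := ht (w * u) (U.mul_mem hw hu)
    rwa [Units.val_mul] at h1
  | zero =>
    rw [zero_mul, trace_zero]
    exact k.zero_mem
  | add x y _ _ ihx ihy =>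
    rw [add_mul, trace_add]
    exact k.add_mem ihx ihy
  | smul c x _ ihx =>
    rw [Matrix.smul_mul, trace_smul]
    have h2 : c • (x * u.val).trace = (c : F) * (x * u.val).trace := rfl
    rw [h2]
    exact k.mul_mem c.2 ihx

/-- the matrix is zero if its products with a spanning set have trace zero -/
theorem eq_zero_of_trace {S : Set (Matrix (Fin n) (Fin n) F)} (hS : Submodule.span F S = ⊤) {x : Matrix (Fin n) (Fin n) F}
    (hx : ∀ u ∈ S, (x * u).trace = 0) : x = 0 := by
  have h1 : ∀ y : Matrix (Fin n) (Fin n) F, (x * y).trace = 0 := by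
    intro y
    have hy : y ∈ Submodule.span F S := by
      rw [hS]
      exact Submodule.mem_top
    induction hy using Submodule.span_induction with
    | mem y hy => exact hx y hy
    | zero => rw [mul_zero, trace_zero]
    | add y z _ _ ihy ihz => rw [mul_add, trace_add, ihy, ihz, add_zero]
    | smul c y _ ihy => rw [Matrix.mul_smul, trace_smul, ihy, smul_zero]
  ext i j
  have h2 := h1 (Matrix.single j i 1)
  rw [Matrix.trace_mul_single] at h2
  simpa using h2

theorem finite_lam {k : Subfield F} {U : Subgroup (GL (Fin n) F)} (ht : ∀ u ∈ U, u.val.trace ∈ k)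
    (hs : Submodule.span F {x : Matrix (Fin n) (Fin n) F | ∃ u ∈ U, x = u.val} = ⊤) : Module.Finite k (lam k U) := by
  classical
  obtain ⟨b, hb1, hb2, hb3⟩ := exists_linearIndependent F {x : Matrix (Fin n) (Fin n) F | ∃ u ∈ U, x = u.val}
  have hfin : b.Finite := hb3.setFinite
  have : Fintype b := hfin.fintype
  have hbu : ∀ x : b, ∃ u ∈ U, (x : Matrix (Fin n) (Fin n) F) = u.val := fun x => hb1 x.2
  choose u hu hux using hbu
  let T : lam k U →ₗ[k] (b → k) :=
    { toFun := fun x j => ⟨((x : Matrix (Fin n) (Fin n) F) * (u j).val).trace, trace_mem ht x.2 (hu j)⟩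
      map_add' := by
        intro x y
        funext j
        apply Subtype.ext
        show (((x : Matrix (Fin n) (Fin n) F) + y) * (u j).val).trace = _
        rw [add_mul, trace_add]
        rfl
      map_smul' := by
        intro c x
        funext j
        apply Subtype.ext
        show ((c • (x : Matrix (Fin n) (Fin n) F)) * (u j).val).trace = _
        rw [Matrix.smul_mul, trace_smul]
        rfl }
  have hT : Function.Injective T := by
    rw [← LinearMap.ker_eq_bot, LinearMap.ker_eq_bot']
    intro x hx
    apply Subtype.ext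
    refine eq_zero_of_trace (S := b) (hb2.trans hs) fun y hy => ?_
    have h1 := congrArg Subtype.val (congrFun hx ⟨y, hy⟩)
    have h2 : ((x : Matrix (Fin n) (Fin n) F) * (u ⟨y, hy⟩).val).trace = 0 := h1
    rwa [← hux] at h2
  exact Module.Finite.of_injective T hT

end Pool.Agent.H88.GN
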