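import Pool.Agent.H88.GN.BaseS
import Pool.Agent.H65.NT.Ring

/-!
# H88 GN, Uni: projective groups over subfields, directed unions, number fields, finite fields
-/

set_option autoImplicit false

namespace Pool.Agent.H88.GN

open Pool.Agent.H98.FJ Pool.Agent.H10.RA

/-- scalar matrices are detected by the entries -/
theorem scalar_of_map {K L : Type} [Field K] [Field L] (f : K →+* L) {n : ℕ} {M : Mn n K} {c : L}
    (h : M.map f = c • (1 : Mn n L)) : ∃ d : K, M = d • (1 : Mn n K) := by
  rcases Nat.eq_zero_or_pos n with hn | hn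
  · subst hn
    exact ⟨0, Subsingleton.elim _ _⟩
  have hent : ∀ i j, f (M i j) = c * (1 : Mn n L) i j := by
    intro i j
    have h1 := congrFun (congrFun h i) j
    rw [Matrix.map_apply, Matrix.smul_apply, smul_eq_mul] at h1
    exact h1
  have h0 : f (M ⟨0, hn⟩ ⟨0, hn⟩) = c := by
    rw [hent, Matrix.one_apply_eq, mul_one]
  refine ⟨M ⟨0, hn⟩ ⟨0, hn⟩, ?_⟩
  ext i j
  apply f.injective
  rw [hent, Matrix.smul_apply, smul_eq_mul, map_mul, h0]
  by_cases hij : i = j
  · subst hij
    rw [Matrix.one_apply_eq, Matrix.one_apply_eq, map_one]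
  · rw [Matrix.one_apply_ne hij, Matrix.one_apply_ne hij, map_zero]

/-- the map of the projective groups -/
noncomputable def pgMap (n : ℕ) {K L : Type} [Field K] [Field L] (f : K →+* L) : PG n K →* PG n L :=
  QuotientGroup.lift _ ((pr n L).comp (Matrix.GeneralLinearGroup.map (n := Fin n) f)) (by
    intro g hg
    obtain ⟨c, hc⟩ := mem_center_iff.1 hg
    rw [MonoidHom.mem_ker, MonoidHom.comp_apply, pr_eq_one]
    refine ⟨f c, ?_⟩
    show g.val.map f = f c • (1 : Mn n L)
    rw [hc]
    ext i j
    rw [Matrix.map_apply, Matrix.smul_apply, Matrix.smul_apply, smul_eq_mul, smul_eq_mul, map_mul]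
    by_cases hij : i = j
    · subst hij
      rw [Matrix.one_apply_eq, Matrix.one_apply_eq, map_one]
    · rw [Matrix.one_apply_ne hij, Matrix.one_apply_ne hij, map_zero])

theorem pgMap_pr (n : ℕ) {K L : Type} [Field K] [Field L] (f : K →+* L) (g : GL (Fin n) K) :
    pgMap n f (pr n K g) = pr n L (Matrix.GeneralLinearGroup.map (n := Fin n) f g) := rfl

theorem pgMap_inj (n : ℕ) {K L : Type} [Field K] [Field L] (f : K →+* L) : Function.Injective (pgMap n f) := by
  rw [injective_iff_map_eq_one]
  intro x hx
  obtain ⟨g, rfl⟩ := pr_surj x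
  rw [pgMap_pr, pr_eq_one] at hx
  obtain ⟨c, hc⟩ := hx
  rw [pr_eq_one]
  exact scalar_of_map f hc

theorem pg_of_hom {C : (G : Type) → [Group G] → Prop} (hC : Inherits C) (n : ℕ) {K L : Type} [Field K] [Field L]
    (f : K →+* L) (h : C (PG n L)) : C (PG n K) := hC.of_injective (pgMap n f) (pgMap_inj n f) h

/-- the projective group over a field is the directed union of the projective groups over the finitely generated subfields -/
theorem pg_union {C : (G : Type) → [Group G] → Prop} (hC : Inherits C) (k : Type) [Field k] (F : Type) [Field F]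
    [Algebra k F] (n : ℕ) (h : ∀ K : IntermediateField k F, Algebra.EssFiniteType k K → C (PG n K)) :
    C (PG n F) := by
  classical
  refine hC.union (ι := Finset F) (fun s =>
    (pgMap n (algebraMap (IntermediateField.adjoin k (s : Set F)) F)).range) ?_ ?_ ?_
  · intro s t hst
    rintro _ ⟨g, rfl⟩
    have hle : IntermediateField.adjoin k (s : Set F) ≤ IntermediateField.adjoin k (t : Set F) :=
      IntermediateField.adjoin.mono k _ _ (by exact_mod_cast hst)
    obtain ⟨g, rfl⟩ := pr_surj g
    refine ⟨pr n _ (Matrix.GeneralLinearGroup.map (n := Fin n) (IntermediateField.inclusion hle).toRingHom g), ?_⟩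
    rw [pgMap_pr, pgMap_pr]
    congr 1
  · intro g
    obtain ⟨g, rfl⟩ := pr_surj g
    let s : Finset F := Finset.univ.image fun q : Fin n × Fin n => g.val q.1 q.2
    refine ⟨s, ?_⟩
    have hm : ∀ i j, g.val i j ∈ IntermediateField.adjoin k (s : Set F) := by
      intro i j
      apply IntermediateField.subset_adjoin
      exact Finset.mem_coe.2 (Finset.mem_image.2 ⟨(i, j), Finset.mem_univ _, rfl⟩)
    let A : Matrix (Fin n) (Fin n) (IntermediateField.adjoin k (s : Set F)) := Matrix.of fun i j => ⟨g.val i j, hm i j⟩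
    have hA : (algebraMap (IntermediateField.adjoin k (s : Set F)) F).mapMatrix A = g.val := by
      ext i j
      rfl
    have hdet : A.det ≠ 0 := by
      intro h0
      have h1 : (algebraMap (IntermediateField.adjoin k (s : Set F)) F) A.det = g.val.det := by
        rw [RingHom.map_det, hA]
      rw [h0, map_zero] at h1
      have h2 : IsUnit g.val.det := (Matrix.isUnit_iff_isUnit_det _).1 g.isUnit
      rw [← h1] at h2
      exact not_isUnit_zero h2
    refine ⟨pr n _ (Matrix.GeneralLinearGroup.mkOfDetNeZero A hdet), ?_⟩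
    rw [pgMap_pr]
    congr 1
    apply Units.ext
    exact hA
  · intro s
    have h1 : Algebra.EssFiniteType k (IntermediateField.adjoin k (s : Set F)) :=
      IntermediateField.essFiniteType_iff.2 (IntermediateField.fg_adjoin_finset s)
    exact hC.iso _ _ (MonoidHom.ofInjective (pgMap_inj n _)) (h _ h1)

/-- from the projective group to the linear group -/
theorem gl_of_pg {C : (G : Type) → [Group G] → Prop} (hC : Inherits C) (hE : Extension C)
    (hS : ∀ (G : Type) [Group G], Group.IsSolvable G → C G) (K : Type) [Field K] (n : ℕ) (h : C (PG n K)) :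
    C (GL (Fin n) K) := by
  refine Pool.Agent.H65.NT.solv_ext hC hE hS (pr n K) ?_ h
  refine Group.isSolvable_of_comm ?_
  rintro ⟨a, ha⟩ ⟨b, hb⟩
  apply Subtype.ext
  have h2 : a ∈ Subgroup.center (GL (Fin n) K) := (QuotientGroup.eq_one_iff _).1 ha
  exact (Subgroup.mem_center_iff.1 h2 b).symm

/-- conjugation as a linear map over the rational numbers -/
private def cjL {F : Type} [Field F] [Algebra ℚ F] {n : ℕ} (g : GL (Fin n) F) : Mn n F →ₗ[ℚ] Mn n F where
  toFun := cj g
  map_add' x y := by
    unfold cj
    rw [mul_add, add_mul]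
  map_smul' c x := by
    unfold cj
    rw [Matrix.mul_smul, Matrix.smul_mul, RingHom.id_apply]

private theorem cjL_apply {F : Type} [Field F] [Algebra ℚ F] {n : ℕ} (g : GL (Fin n) F) (x : Mn n F) :
    cjL g x = cj g x := rfl

private def cjH (F : Type) [Field F] [Algebra ℚ F] (n : ℕ) : GL (Fin n) F →* Module.End ℚ (Mn n F) where
  toFun := cjL
  map_one' := LinearMap.ext fun x => cj_one x
  map_mul' g h := LinearMap.ext fun x => cj_mul g h x

/-- Degree zero, characteristic zero. -/
theorem pg_number {C : (G : Type) → [Group G] → Prop} (hC : Inherits C) (hQ : ∀ n : ℕ, C (GL (Fin n) ℚ)) (F : Type)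
    [Field F] [Algebra ℚ F] [FiniteDimensional ℚ F] (n : ℕ) : C (PG n F) := by
  have hfin : FiniteDimensional ℚ (Mn n F) := inferInstance
  let b := Module.finBasis ℚ (Mn n F)
  let ψ : GL (Fin n) F →* GL (Fin (Module.finrank ℚ (Mn n F))) ℚ :=
    (((LinearMap.toMatrixAlgEquiv b).toMulEquiv.toMonoidHom).comp (cjH F n)).toHomUnits
  have hψ : ∀ g, ψ g = 1 ↔ g ∈ Subgroup.center (GL (Fin n) F) := by
    intro g
    have h1 : ψ g = 1 ↔ cjL g = LinearMap.id := by
      constructor
      · intro h
        have h2 : LinearMap.toMatrixAlgEquiv b (cjL g) = 1 := congrArg Units.val h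
        rw [← map_one (LinearMap.toMatrixAlgEquiv b)] at h2
        exact (LinearMap.toMatrixAlgEquiv b).injective h2
      · intro h
        apply Units.ext
        show LinearMap.toMatrixAlgEquiv b (cjL g) = 1
        rw [h]
        exact map_one (LinearMap.toMatrixAlgEquiv b)
    rw [h1]
    constructor
    · intro h
      refine central_of_cj fun x => ?_
      rw [← cjL_apply, h]
      rfl
    · intro h
      obtain ⟨c, hc⟩ := mem_center_iff.1 h
      exact LinearMap.ext fun x => cj_scalar hc x
  refine hC.of_injective (QuotientGroup.lift (Subgroup.center (GL (Fin n) F)) ψ fun g hg => (hψ g).2 hg) ?_ (hQ _)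
  rw [injective_iff_map_eq_one]
  intro x hx
  obtain ⟨g, rfl⟩ := QuotientGroup.mk_surjective x
  rw [QuotientGroup.lift_mk] at hx
  exact (QuotientGroup.eq_one_iff g).2 ((hψ g).1 hx)

/-- Finite fields. -/
theorem pg_finite {C : (G : Type) → [Group G] → Prop} (hC : Inherits C) (F : Type) [Field F] [Finite F] (n : ℕ) :
    C (PG n F) := by
  have h1 : Finite (Mn n F) := inferInstanceAs (Finite (Fin n → Fin n → F))
  have h2 : Finite (GL (Fin n) F) := Finite.of_injective (fun g : GL (Fin n) F => (g.val : Mn n F)) Units.val_injective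
  exact hC.fin _ (Finite.of_surjective _ pr_surj)

end Pool.Agent.H88.GN
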